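import Pool.Agent.H70.EN.Targets

/-!
# LG1: the sum of all weights
-/

set_option autoImplicit false

namespace Pool.Agent.H62.ENM

open Finset Pool.Agent.H6.N4D Pool.Agent.H93.EB Pool.Agent.H70.EN

theorem sum_inv_le (X : ℕ) : ∑ n ∈ Icc 1 X, 1 / (n : ℝ) ≤ 1 + Real.log X := by
  have h1 := harmonic_le_one_add_log X
  have h2 : ((harmonic X : ℚ) : ℝ) = ∑ n ∈ Icc 1 X, 1 / (n : ℝ) := by
    rw [harmonic_eq_sum_Icc]
    push_cast
    exact Finset.sum_congr rfl fun n _ => by rw [one_div]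
  rw [← h2]
  exact h1

theorem pf_LG1 : T_LG1 := by
  intro X h hh _
  unfold lg
  constructor
  · exact Finset.sum_nonneg fun n _ => div_nonneg (hh n).1 (Nat.cast_nonneg _)
  · refine le_trans (Finset.sum_le_sum fun n _ => ?_) (sum_inv_le X)
    exact div_le_div_of_nonneg_right (hh n).2 (Nat.cast_nonneg _)

end Pool.Agent.H62.ENM
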