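import Pool.Agent.H70.EN.Targets

/-!
# PHI: properties of the convex function of the energy
-/

set_option autoImplicit false

namespace Pool.Agent.H62.ENM

open Finset Pool.Agent.H6.N4D Pool.Agent.H93.EB Pool.Agent.H70.EN

theorem pf_PHI : T_PHI := by
  have hconv : ConvexOn ℝ Set.univ (fun x : ℝ => max (x - 63 / 100) 0) := by
    refine ConvexOn.sup (f := fun x : ℝ => x - 63 / 100) ?_ (convexOn_const 0 convex_univ)
    refine ⟨convex_univ, fun x _ y _ a b ha hb hab => le_of_eq ?_⟩
    simp only [smul_eq_mul]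
    linear_combination (63 / 100 : ℝ) * hab
  refine ⟨?_, ?_, ?_, ?_, ?_⟩
  · exact hconv.pow (fun x _ => le_max_right _ _) 2
  · intro x y hxy
    unfold phi
    exact pow_le_pow_left₀ (le_max_right _ _) (max_le_max (by linarith) le_rfl) 2
  · intro x
    exact sq_nonneg _
  · intro x y hx hy
    unfold phi
    have h1 : |max (x - 63 / 100) 0 - max (y - 63 / 100) 0| ≤ |x - y| := by
      have := abs_max_sub_max_le_abs (x - 63 / 100) (y - 63 / 100) 0
      have e : x - 63 / 100 - (y - 63 / 100) = x - y := by ring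
      rwa [e] at this
    have h2 : 0 ≤ max (x - 63 / 100) 0 := le_max_right _ _
    have h3 : 0 ≤ max (y - 63 / 100) 0 := le_max_right _ _
    have h4 : max (x - 63 / 100) 0 ≤ 137 / 100 := max_le (by linarith) (by norm_num)
    have h5 : max (y - 63 / 100) 0 ≤ 137 / 100 := max_le (by linarith) (by norm_num)
    have h6 : max (x - 63 / 100) 0 ^ 2 - max (y - 63 / 100) 0 ^ 2 =
        (max (x - 63 / 100) 0 + max (y - 63 / 100) 0) *
          (max (x - 63 / 100) 0 - max (y - 63 / 100) 0) := by ring
    rw [h6, abs_mul, abs_of_nonneg (by linarith)]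
    exact mul_le_mul (by linarith) h1 (abs_nonneg _) (by norm_num)
  · intro x hx
    unfold phi
    have h1 : 0 ≤ max (x - 63 / 100) 0 := le_max_right _ _
    have h2 : max (x - 63 / 100) 0 ≤ 1 := max_le (by linarith) (by norm_num)
    exact pow_le_one₀ h1 h2

end Pool.Agent.H62.ENM
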